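import Mathlib
import Pool.Agent.Helper413.Quad.Defs
import Pool.Agent.Helper413.Quad.Projective
import Pool.Agent.Helper413.Quad.Phi
import Pool.Agent.Helper413.Quad.NonIso

open AlgebraicGeometry CategoryTheory

universe u

namespace Pool.Agent.Results.MP_63fcef_ag.QuadricThreefold

open Pool.Agent.Helper413.Quad

/-- Over every field `k` of characteristic two there are a smooth projective integral threefold `X`
(the quadric `z ^ 2 = x₀ x₁ + x₂ x₃` in projective four-space), not isomorphic to any projective
space over `k`, an ample line bundle `L` on `X`, and a nonzero morphism from `L` to the tangent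
sheaf of `X`. -/
theorem result (k : Type u) [Field k] [CharP k 2] :
    ∃ (X : Scheme.{u}) (s : X ⟶ Spec (CommRingCat.of k)) (L : LineBundle X)
      (φ : HomToTangent s L),
      SmoothOfRelativeDimension 3 s ∧ IsIntegral X ∧ IsProjectiveOver s ∧
      L.IsAmple ∧ φ.IsNonzero ∧
      ∀ n : ℕ, ¬ ∃ e : X ≅ PP k n, e.hom ≫ PPstr k n = s := by
  refine ⟨XX k, XXstr k, O1 k, phi k, smooth_XX k, isIntegral_XX k, isProjective_XX k,
    ample_O1 k, phi_nonzero k, ?_⟩
  rintro n ⟨e, he⟩
  have h1 : e.inv ≫ XXstr k = PPstr k n := by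
    rw [← he, Iso.inv_hom_id_assoc]
  exact noniso (n := n) (show YY k n ⟶ XX k from e.inv) h1

end Pool.Agent.Results.MP_63fcef_ag.QuadricThreefold
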